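import Pool.Agent.Work.MP_05fb57_th.B_FBA
import Pool.Agent.Work.MP_05fb57_th.B_FB2
import Pool.Agent.Work.MP_05fb57_th.B_FBX
import Pool.Agent.Work.MP_05fb57_th.B_GE2x
import Pool.Agent.Work.MP_05fb57_th.B_ISO
import Pool.Agent.Work.MP_05fb57_th.B_GEN
import Pool.Agent.Work.MP_05fb57_th.B_VVF
import Pool.Agent.Work.MP_05fb57_th.B_LWE
import Pool.Agent.Work.MP_05fb57_th.B_LWC
import Pool.Agent.Work.MP_05fb57_th.B_SNKx
import Pool.Agent.Work.MP_05fb57_th.B_YIK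
import Pool.Agent.Work.MP_05fb57_th.B_CMK
import Pool.Agent.Work.MP_05fb57_th.B_TFK
import Pool.Agent.Work.MP_05fb57_th.B_TGK
import Pool.Agent.Work.MP_05fb57_th.B_I2K
import Pool.Agent.Work.MP_05fb57_th.B_IGK
import Pool.Agent.Work.MP_05fb57_th.B_UBK
import Pool.Agent.Work.MP_05fb57_th.B_UBX
import Pool.Agent.Work.MP_05fb57_th.B_ING
import Pool.Agent.Work.MP_05fb57_th.B_IN2
import Pool.Agent.Work.MP_05fb57_th.B_TFG
import Pool.Agent.Work.MP_05fb57_th.B_TFLx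
import Pool.Agent.Work.MP_05fb57_th.B_CMP
import Pool.Agent.Work.MP_05fb57_th.B_YIN
import Pool.Agent.Work.MP_05fb57_th.B_SNI
import Pool.Agent.Work.MP_05fb57_th.B_LPH
import Pool.Agent.Work.MP_05fb57_th.B_SUM
import Pool.Agent.Work.MP_05fb57_th.B_CON
import Pool.Agent.Work.MP_05fb57_th.B_LWB
import Pool.Agent.Work.MP_05fb57_th.B_PDR
import Pool.Agent.Work.MP_05fb57_th.B_CAPE
import Pool.Agent.Work.MP_05fb57_th.B_CAP0
import Pool.Agent.Work.MP_05fb57_th.B_LIM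
import Pool.Agent.Work.MP_05fb57_th.B_DSC
import Pool.Agent.Work.MP_05fb57_th.B_TRL

/-!
# MP_05fb57_an: no box has the property of Q1

For every open box `D` (rectangular parallelepiped) in any position in `ℝ ^ d`, `d = n + 1 ≥ 2`, the problem
`P(D, m)` has no convex solution for every `m` slightly larger than `|D|`.
-/

namespace Pool.Agent.Results.MP_05fb57_an.Boxes

open Pool.Agent.ConvexMin
open MeasureTheory Set Filter Topology
open scoped ENNReal RealInnerProductSpace ContDiff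

theorem ubx : S_UBX :=
  p_UBX p_LPH (p_CMP p_SNI) p_TFLx (p_IN2 p_SNI) (p_ING p_SNI p_YIN (p_TFG p_TFLx)) p_CAPE

theorem lwb : S_LWB := p_LWB (p_PDR p_TRL p_DSC p_LIM) p_CAP0

theorem fbx : S_FBX := p_FBX lwb (p_SUM p_CON) (p_CMP p_SNI) ubx p_CAPE

theorem ubk : S_UBK :=
  p_UBK p_LPH (p_CMK p_SNKx) p_TFK (p_I2K p_SNKx) (p_IGK p_SNKx p_YIK (p_TGK p_TFK)) p_CAPE

theorem lwc : S_LWC := p_LWC (p_LWE (p_GEN p_TRL) p_VVF p_CAP0)

theorem fb2 : S_FB2 := p_FB2 lwb lwc (p_GE2x p_CON) (p_CMK p_SNKx) ubk p_SNKx p_CAPE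

theorem fba : S_FBA := p_FBA fbx fb2 p_ISO

theorem box_volume {n : ℕ} (a : Fin (n + 1) → ℝ) (ha : ∀ j, 0 < a j) :
    volume (box a) ≤ ENNReal.ofReal (∏ i, a i) := by
  obtain ⟨_, h2, h3⟩ := p_CMP p_SNI n a 0 ha le_rfl
  have h4 := measure_mono (μ := (volume : Measure (E (n + 1)))) h2
  rw [h3] at h4
  simpa using h4

theorem T_eq {d : ℕ} (T : E d ≃ᵃⁱ[ℝ] E d) (x : E d) : T x = T.linearIsometryEquiv x + T 0 := by
  have h := T.map_vadd 0 x
  simpa using h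

theorem mp {d : ℕ} (T : E d ≃ᵃⁱ[ℝ] E d) : MeasurePreserving (T : E d → E d) volume volume := by
  have h : (T : E d → E d) = (fun y => y + T 0) ∘ T.linearIsometryEquiv := by
    funext x
    exact T_eq T x
  rw [h]
  exact (measurePreserving_add_right volume (T 0)).comp T.linearIsometryEquiv.measurePreserving

theorem image_volume {d : ℕ} (T : E d ≃ᵃⁱ[ℝ] E d) (D : Set (E d)) : volume (T '' D) = volume D := by
  have h := (mp T).measure_preimage_emb T.toHomeomorph.measurableEmbedding (T '' D)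
  rw [preimage_image_eq _ T.injective] at h
  exact h.symm

theorem result : ∀ (n : ℕ) (a : Fin (n + 1) → ℝ) (T : E (n + 1) ≃ᵃⁱ[ℝ] E (n + 1)), 1 ≤ n →
    (∀ j, 0 < a j) →
    (∃ δ : ℝ, 0 < δ ∧ ∀ m : ℝ, (∏ i, a i) < m → m < (∏ i, a i) + δ →
      ¬ HasConvexSolution (T '' box a) m) ∧ ¬ HasProperty (T '' box a) := by
  intro n a T hn ha
  obtain ⟨δ, hδ, h⟩ := fba n a T hn ha
  refine ⟨⟨δ, hδ, h⟩, fun hP => ?_⟩
  refine h ((∏ i, a i) + δ / 2) (by linarith) (by linarith) (hP _ ?_)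
  rw [image_volume]
  exact (box_volume a ha).trans (ENNReal.ofReal_le_ofReal (by linarith))

end Pool.Agent.Results.MP_05fb57_an.Boxes
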