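import Pool.Agent.Work.MP_05fb57_th.B_CLO
import Pool.Agent.Work.MP_05fb57_th.B_SAN
import Pool.Agent.Work.MP_05fb57_th.B_SCL
import Pool.Agent.Work.MP_05fb57_th.B_BND
import Pool.Agent.Work.MP_05fb57_th.B_CPT
import Pool.Agent.Work.MP_05fb57_th.B_MON

/-!
# MP_05fb57_an: the class of convex sets with the property of Q1 is closed

If open convex sets with the property of Q1 converge to an open convex set in the Hausdorff distance, the limit
has the property.
-/

namespace Pool.Agent.Results.MP_05fb57_an.Closed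

open Pool.Agent.ConvexMin
open MeasureTheory Set Filter Topology
open scoped ENNReal RealInnerProductSpace ContDiff

/-- each point of one set has distance less than `η` from a point of the other -/
def Near {d : ℕ} (A B : Set (E d)) (η : ℝ) : Prop :=
  (∀ x ∈ A, ∃ y ∈ B, dist x y < η) ∧ ∀ y ∈ B, ∃ x ∈ A, dist x y < η

theorem clo : S_CLO := p_CLO p_MON p_SCL p_BND p_SAN p_CPT

theorem result :
    ∀ (d : ℕ) (D : ℕ → Set (E d)) (D₀ : Set (E d)), 1 ≤ d →
      (∀ n, IsOpen (D n) ∧ Convex ℝ (D n) ∧ (D n).Nonempty ∧ HasProperty (D n)) →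
      IsOpen D₀ → Convex ℝ D₀ → D₀.Nonempty → (∀ η : ℝ, 0 < η → ∀ᶠ n in atTop, Near (D n) D₀ η) →
      HasProperty D₀ :=
  fun d D D₀ hd hD h1 h2 h3 h4 => clo d D D₀ hd hD h1 h2 h3 h4

end Pool.Agent.Results.MP_05fb57_an.Closed
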