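import Pool.Agent.Work.MP_05fb57_th.B_FIN2
import Pool.Agent.Work.MP_05fb57_th.B_FIND
import Pool.Agent.Work.MP_05fb57_th.B_HOM
import Pool.Agent.Work.MP_05fb57_th.B_WID2
import Pool.Agent.Work.MP_05fb57_th.B_WIDD
import Pool.Agent.Work.MP_05fb57_th.B_MAXD
import Pool.Agent.Work.MP_05fb57_th.B_HAD
import Pool.Agent.Work.MP_05fb57_th.B_SIM
import Pool.Agent.Work.MP_05fb57_th.B_TRG
import Pool.Agent.Work.MP_05fb57_th.B_ADM
import Pool.Agent.Work.MP_05fb57_th.B_CUB
import Pool.Agent.Work.MP_05fb57_th.B_UPP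
import Pool.Agent.Work.MP_05fb57_th.B_CAPE
import Pool.Agent.Work.MP_05fb57_th.B_TRI
import Pool.Agent.Work.MP_05fb57_th.B_TRC
import Pool.Agent.Work.MP_05fb57_th.B_BMP
import Pool.Agent.Work.MP_05fb57_th.B_C1H
import Pool.Agent.Work.MP_05fb57_th.B_LOW
import Pool.Agent.Work.MP_05fb57_th.B_CAP0
import Pool.Agent.Work.MP_05fb57_th.B_POI
import Pool.Agent.Work.MP_05fb57_th.B_LIM
import Pool.Agent.Work.MP_05fb57_th.B_DSC
import Pool.Agent.Work.MP_05fb57_th.B_TRL

/-!
# MP_05fb57_an: thin and elongated convex sets do not have the property of Q1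

Let `D` be open and convex in `ℝ ^ d`, `d ≥ 2`, of finite measure. If the problem `P(D, 2 |D|)` has a convex solution
(so if `D` has the property of Q1), then the width of `D` is at least a constant times `|D| ^ (1 / d)` and the diameter at
most a constant times `|D| ^ (1 / d)`, with explicit constants which depend only on `d`.
-/

namespace Pool.Agent.Results.MP_05fb57_an.ElongatedSets

open Pool.Agent.ConvexMin
open MeasureTheory Set Filter Topology
open scoped ENNReal RealInnerProductSpace ContDiff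

theorem low : S_LOW := p_LOW (p_POI p_TRL p_DSC p_LIM) p_CAP0

theorem upp : S_UPP := p_UPP p_C1H (p_TRC p_BMP) (p_TRI p_BMP (p_TRC p_BMP)) p_CAPE

theorem adm : S_ADM := p_ADM p_CAPE p_CUB

theorem finw : S_FINW := p_FINW low upp adm p_HOM

theorem fin2 : S_FIN2 := p_FIN2 low upp adm (p_WID2 p_TRG)

theorem find : S_FIND := p_FIND low upp adm (p_WIDD p_SIM p_HAD (p_MAXD p_SIM))

theorem result :
    ∀ (d : ℕ) (D : Set (E d)), 2 ≤ d → IsOpen D → Convex ℝ D → D.Nonempty → volume D < ⊤ →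
      HasConvexSolution D (2 * (volume D).toReal) →
      (∀ (n : E d) (a w : ℝ), ‖n‖ = 1 → (∀ x ∈ D, a < ⟪x, n⟫ ∧ ⟪x, n⟫ < a + w) →
        (volume D).toReal ^ (2 / (d : ℝ)) ≤ 192 * (d : ℝ) ^ 3 * w ^ 2) ∧
      (∀ p ∈ D, ∀ q ∈ D,
        dist p q ≤ 2 * (4 * d) ^ (d - 1) * d ^ d * (volume D).toReal ^ (1 / (d : ℝ))) ∧
      (d = 2 → ∀ p ∈ D, ∀ q ∈ D, dist p q ^ 2 ≤ 128 / 3 * (volume D).toReal) := by
  intro d D hd hDo hDc hDn hfin hsol
  refine ⟨?_, ?_, ?_⟩
  · intro n a w hn hstrip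
    by_contra hcon
    rw [not_le] at hcon
    exact finw d D n a w (by omega) hDo hDn hfin hn hstrip hcon hsol
  · intro p hp q hq
    obtain ⟨n, rfl⟩ : ∃ n, d = n + 1 := ⟨d - 1, by omega⟩
    by_contra hcon
    rw [not_le] at hcon
    refine find n D p q (by omega) hDo hDc hfin hp hq ?_ hsol
    have h1 : n + 1 - 1 = n := by omega
    rw [h1] at hcon
    push_cast at hcon
    exact hcon
  · intro hd2 p hp q hq
    subst hd2
    have hpos : 0 < volume D := hDo.measure_pos volume hDn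
    have hA0 : 0 < (volume D).toReal := ENNReal.toReal_pos hpos.ne' hfin.ne
    by_contra hcon
    rw [not_le] at hcon
    refine fin2 D (2 * (volume D).toReal) p q hDo ?_ hp hq ?_ hsol
    · calc volume D = ENNReal.ofReal (volume D).toReal := (ENNReal.ofReal_toReal hfin.ne).symm
        _ ≤ ENNReal.ofReal (2 * (volume D).toReal) := ENNReal.ofReal_le_ofReal (by linarith)
    · have h2 : 2 * (volume D).toReal - (volume D).toReal = (volume D).toReal := by ring
      rw [h2]
      nlinarith [mul_lt_mul_of_pos_right hcon hA0]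

end Pool.Agent.Results.MP_05fb57_an.ElongatedSets
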