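import Pool.Agent.Results.MP_05fb57_an.Boxes
import Pool.Agent.Results.MP_05fb57_an.Closed
import Pool.Agent.Work.MP_05fb57_th.B_NBD

/-!
# MP_05fb57_an: no convex set near a box has the property of Q1

Around every box in every position in `ℝ ^ d`, `d = n + 1 ≥ 2`, a whole neighbourhood (for the Hausdorff distance)
of open convex sets does not have the property of Q1.
-/

namespace Pool.Agent.Results.MP_05fb57_an.NearBoxes

open Pool.Agent.ConvexMin
open MeasureTheory Set Filter Topology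
open scoped ENNReal RealInnerProductSpace ContDiff

/-- each point of one set has distance less than `η` from a point of the other -/
def Near {d : ℕ} (A B : Set (E d)) (η : ℝ) : Prop :=
  (∀ x ∈ A, ∃ y ∈ B, dist x y < η) ∧ ∀ y ∈ B, ∃ x ∈ A, dist x y < η

theorem result :
    ∀ (n : ℕ) (a : Fin (n + 1) → ℝ) (T : E (n + 1) ≃ᵃⁱ[ℝ] E (n + 1)), 1 ≤ n → (∀ j, 0 < a j) →
      ∃ η : ℝ, 0 < η ∧ ∀ D : Set (E (n + 1)), IsOpen D → Convex ℝ D → D.Nonempty →
        Near D (T '' box a) η → ¬ HasProperty D := by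
  intro n a T hn ha
  obtain ⟨η, hη, h⟩ := p_NBD Closed.clo Boxes.fba n a T hn ha
  exact ⟨η, hη, fun D h1 h2 h3 h4 => h D h1 h2 h3 h4.1 h4.2⟩

end Pool.Agent.Results.MP_05fb57_an.NearBoxes
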